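import Pool.Agent.Lib.MP_506ba8_co.P50.All

/-!
`O(√n)` discrepancy, uniformly in the size of the ground set, for families of `n` Lipschitz functions
in which all but `n / log² n` of the functions are additive, and more generally for all functions
that are Lipschitz functions of `n` additive functions and of `k` arbitrary Lipschitz functions.
-/

open Finset

namespace Pool.Agent.Results.MP_506ba8_co.ManyNonadditive

theorem result : ∃ C : ℝ,
    (∀ (n m : ℕ) (f : Fin n → Finset (Fin m) → ℝ) (E : Finset (Fin n)),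
      ((E.card : ℝ) + 1) * Real.log (n + 2) ^ 2 ≤ n →
      (∀ (i : Fin n) (S : Finset (Fin m)) (x : Fin m), |f i (insert x S) - f i (S.erase x)| ≤ 1) →
      (∀ i ∉ E, ∃ (a : Fin m → ℝ) (b : ℝ), ∀ S : Finset (Fin m), f i S = b + ∑ g ∈ S, a g) →
      ∃ A : Finset (Fin m), ∀ i, |f i A - f i Aᶜ| ≤ C * √n) ∧
    (∀ (n m k : ℕ) (a : Fin n → Fin m → ℝ) (h : Fin k → Finset (Fin m) → ℝ),
      (∀ i g, |a i g| ≤ 1) →
      (∀ (l : Fin k) (S : Finset (Fin m)) (x : Fin m), |h l (insert x S) - h l (S.erase x)| ≤ 1) →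
      ∃ A : Finset (Fin m), (∀ l, |h l A - h l Aᶜ| ≤ C * (√(k + 1) * Real.log (n + k + 2))) ∧
        ∀ f : Finset (Fin m) → ℝ,
          (∀ (S T : Finset (Fin m)) (δ : ℝ), 0 ≤ δ →
            (∀ i, |∑ g ∈ S, a i g - ∑ g ∈ T, a i g| ≤ δ) → (∀ l, |h l S - h l T| ≤ δ) →
            |f S - f T| ≤ δ) →
          |f A - f Aᶜ| ≤ C * (√n + √(k + 1) * Real.log (n + k + 2))) :=
  Pool.Agent.Lib.MP_506ba8_co.P50.res_of_main Pool.Agent.Lib.MP_506ba8_co.P50.main_all

end Pool.Agent.Results.MP_506ba8_co.ManyNonadditive
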