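import Pool.Agent.Lib.MP_506ba8_co.H52.Main

/-!
Discrepancy of families of `n` Lipschitz functions on subsets of an `m`-element set:
a bound that improves `√(n log n)` when `m` is not much larger than `n`, and is `O(√n)`
in the range `m √(log n) log log n ≤ n`.
-/

open Finset

namespace Pool.Agent.Results.MP_506ba8_co.SmallGroundSet

lemma log_one_add_le_sqrt {x : ℝ} (hx : 0 ≤ x) : Real.log (1 + x) ≤ √x := by
  have h1 : 0 ≤ √x := Real.sqrt_nonneg x
  have h2 : √x ^ 2 = x := Real.sq_sqrt hx
  rw [Real.log_le_iff_le_exp (by linarith)]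
  set s := √x with hs
  have h4 : 1 + s + s ^ 2 / 2 + s ^ 3 / 6 ≤ Real.exp s := by
    have := Real.sum_le_exp_of_nonneg h1 4
    simp only [Finset.sum_range_succ, Finset.sum_range_zero, Nat.factorial] at this
    norm_num at this
    linarith
  have h5 : 1 + s ^ 2 ≤ 1 + s + s ^ 2 / 2 + s ^ 3 / 6 := by nlinarith [sq_nonneg (s - 3/2)]
  rw [← h2]; linarith

lemma L_gt (n : ℕ) : 2.72 < Real.log (n + 16) := by
  have h1 : Real.log 16 ≤ Real.log ((n : ℝ) + 16) :=
    Real.log_le_log (by norm_num) (by linarith [Nat.cast_nonneg (α := ℝ) n])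
  have h2 : Real.log 16 = 4 * Real.log 2 := by
    rw [show (16 : ℝ) = 2 ^ 4 by norm_num, Real.log_pow]; norm_num
  have := Real.log_two_gt_d9
  linarith

lemma ell_gt (n : ℕ) : 1 < Real.log (Real.log (n + 16)) := by
  have h1 := L_gt n
  rw [Real.lt_log_iff_exp_lt (by linarith)]
  have := Real.exp_one_lt_d9
  linarith

lemma L_le {n : ℕ} (hn : 1 ≤ n) : Real.log (n + 16) ≤ 3 * n := by
  have hn' : (1 : ℝ) ≤ n := by exact_mod_cast hn
  have h1 : Real.log ((n : ℝ) + 16) ≤ Real.log (17 * n) :=
    Real.log_le_log (by linarith) (by linarith)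
  rw [Real.log_mul (by norm_num) (by linarith)] at h1
  have h2 : Real.log 17 ≤ 2.9 := by
    have h3 : Real.log 17 = Real.log 16 + Real.log (17/16) := by
      rw [← Real.log_mul (by norm_num) (by norm_num)]; norm_num
    have h4 : Real.log 16 = 4 * Real.log 2 := by
      rw [show (16 : ℝ) = 2 ^ 4 by norm_num, Real.log_pow]; norm_num
    have h5 := Real.log_two_lt_d9
    have h6 := Real.log_le_sub_one_of_pos (show (0 : ℝ) < 17/16 by norm_num)
    linarith
  have h3 := Real.log_le_sub_one_of_pos (show (0 : ℝ) < n by linarith)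
  linarith

theorem result (n m : ℕ) (f : Fin n → Finset (Fin m) → ℝ)
    (hf : ∀ i : Fin n, ∀ S : Finset (Fin m), ∀ x : Fin m,
      |f i (insert x S) - f i (S.erase x)| ≤ 1) :
    ∃ A : Finset (Fin m), ∀ i : Fin n, |f i A - f i Aᶜ|
      ≤ 800 * (√n + √(m * √(Real.log (n + 16)) * Real.log (Real.log (n + 16)))) := by
  rcases Nat.eq_zero_or_pos n with rfl | hn
  · exact ⟨∅, fun i => i.elim0⟩
  have hmain := fun R hR hRm => Pool.Agent.Lib.MP_506ba8_co.H52.main_bound (R := R) hn hR hRm f hf
  have hn0 : (1 : ℝ) ≤ n := by exact_mod_cast hn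
  set L := Real.log ((n : ℝ) + 16) with hL
  set l := Real.log L with hl
  have hL1 : 2.72 < L := L_gt n
  have hl1 : 1 < l := ell_gt n
  have hL3 : L ≤ 3 * n := L_le hn
  have hL0 : 0 < L := by linarith
  set X := √((m : ℝ) * √L * l) with hX
  have hX0 : 0 ≤ X := Real.sqrt_nonneg _
  have hsn0 : 0 ≤ √(n : ℝ) := Real.sqrt_nonneg _
  have hsn : √(n : ℝ) ^ 2 = n := Real.sq_sqrt (by linarith)
  have hsL0 : 0 < √L := Real.sqrt_pos.mpr hL0
  have hsL : √L ^ 2 = L := Real.sq_sqrt hL0.le
  have hXsq : X ^ 2 = m * √L * l := Real.sq_sqrt (by positivity)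
  have hlog2n : Real.log (2 * n) ≤ 2 * L := by
    have : Real.log (2 * n) ≤ Real.log (((n : ℝ) + 16) ^ 2) :=
      Real.log_le_log (by linarith) (by nlinarith)
    rw [Real.log_pow] at this
    simpa using this
  have hlog2n0 : 0 ≤ Real.log (2 * n) := Real.log_nonneg (by linarith)
  have hkey : ∃ A : Finset (Fin m), ∀ i : Fin n, |f i A - f i Aᶜ| ≤ 800 * (√n + X) := by
    rcases Nat.eq_zero_or_pos m with rfl | hm
    · refine ⟨∅, fun i => ?_⟩
      have : (∅ : Finset (Fin 0))ᶜ = ∅ := Finset.eq_empty_of_isEmpty _
      rw [this, sub_self, abs_zero]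
      positivity
    have hm0 : (0 : ℝ) < m := by exact_mod_cast hm
    by_cases hcase : (n : ℝ) ≤ m * L
    · -- large ground set
      have hlL : l ≤ √L := by
        have h1 := log_one_add_le_sqrt (show 0 ≤ L - 1 by linarith)
        have h2 : √(L - 1) ≤ √L := Real.sqrt_le_sqrt (by linarith)
        have h3 : 1 + (L - 1) = L := by ring
        rw [h3] at h1
        exact h1.trans h2
      set R := ⌈(m : ℝ) * l / √L⌉₊ with hR
      have hpos : 0 < (m : ℝ) * l / √L := by positivity
      have hR1 : 1 ≤ R := Nat.ceil_pos.mpr hpos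
      have hRm : R ≤ m := by
        apply Nat.ceil_le.mpr
        rw [div_le_iff₀ hsL0]
        exact mul_le_mul_of_nonneg_left hlL hm0.le
      have hRge : (m : ℝ) * l / √L ≤ R := Nat.le_ceil _
      have hRlt : (R : ℝ) < m * l / √L + 1 := Nat.ceil_lt_add_one hpos.le
      have hR0 : (0 : ℝ) < R := by exact_mod_cast hR1
      obtain ⟨A, hA⟩ := hmain R hR1 hRm
      refine ⟨A, fun i => (hA i).trans ?_⟩
      have hsR0 : 0 < √(R : ℝ) := Real.sqrt_pos.mpr hR0
      have hsR : √(R : ℝ) ^ 2 = R := Real.sq_sqrt hR0.le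
      -- first term
      have h1 : (m : ℝ) / √R ≤ X / l := by
        rw [div_le_div_iff₀ hsR0 (by linarith)]
        apply le_of_sq_le_sq _ (by positivity)
        rw [mul_pow, mul_pow, hXsq, hsR]
        have h2 : (m : ℝ) * √L * l * (m * l / √L) = m ^ 2 * l ^ 2 := by
          field_simp
        rw [← h2]
        exact mul_le_mul_of_nonneg_left hRge (by positivity)
      have h2 : 1 + Real.log (1 + n / R) ≤ 3 * l := by
        have h3 : (n : ℝ) / R ≤ L * √L := by
          rw [div_le_iff₀ hR0]
          have h4 : L * √L * (m * l / √L) = m * L * l := by field_simp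
          have h5 : L * √L * (m * l / √L) ≤ L * √L * R :=
            mul_le_mul_of_nonneg_left hRge (by positivity)
          rw [h4] at h5
          have h6 : (m : ℝ) * L ≤ m * L * l := le_mul_of_one_le_right (by positivity) hl1.le
          linarith
        have h4 : 1 + (n : ℝ) / R ≤ L ^ 2 := by
          have h5 : (1.6 : ℝ) ≤ √L := by
            apply Real.le_sqrt_of_sq_le
            norm_num
            linarith
          have h6 : L * √L * 1.6 ≤ L * √L * √L := mul_le_mul_of_nonneg_left h5 (by positivity)
          have h7 : L * √L * √L = L ^ 2 := by rw [mul_assoc, ← pow_two, hsL]; ring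
          have h8 : 2.72 * 1.6 ≤ L * √L := by
            apply mul_le_mul hL1.le h5 (by norm_num) hL0.le
          rw [h7] at h6
          linarith
        have h5 : Real.log (1 + n / R) ≤ Real.log (L ^ 2) :=
          Real.log_le_log (by positivity) h4
        rw [Real.log_pow] at h5
        push_cast at h5
        linarith
      have h3 : 240 * (m : ℝ) / √R * (1 + Real.log (1 + n / R)) ≤ 720 * X := by
        have h0 : 0 ≤ 1 + Real.log (1 + n / R) := by
          have : 0 ≤ Real.log (1 + n / R) := Real.log_nonneg (by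
            have : 0 ≤ (n : ℝ) / R := by positivity
            linarith)
          linarith
        calc 240 * (m : ℝ) / √R * (1 + Real.log (1 + n / R))
            = 240 * ((m / √R) * (1 + Real.log (1 + n / R))) := by ring
          _ ≤ 240 * ((X / l) * (3 * l)) := by
              apply mul_le_mul_of_nonneg_left _ (by norm_num)
              apply mul_le_mul h1 h2 h0 (by positivity)
          _ = 720 * X := by
              have : l ≠ 0 := by linarith
              field_simp
              ring
      -- second term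
      have h4 : 2 * √(R * Real.log (2 * n)) ≤ 80 * (√n + X) := by
        have h5 : (R : ℝ) * Real.log (2 * n) ≤ 2 * X ^ 2 + 6 * n := by
          calc (R : ℝ) * Real.log (2 * n) ≤ (m * l / √L + 1) * (2 * L) := by
                apply mul_le_mul hRlt.le hlog2n hlog2n0 (by positivity)
            _ = 2 * (m * l * (L / √L)) + 2 * L := by ring
            _ = 2 * X ^ 2 + 2 * L := by
                have : L / √L = √L := by
                  rw [div_eq_iff hsL0.ne', ← pow_two, hsL]
                rw [this, hXsq]; ring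
            _ ≤ 2 * X ^ 2 + 6 * n := by linarith
        have h6 : √(R * Real.log (2 * n)) ≤ 40 * (√n + X) := by
          apply Real.sqrt_le_iff.mpr
          refine ⟨by positivity, h5.trans ?_⟩
          have : 0 ≤ √(n : ℝ) * X := by positivity
          nlinarith
        linarith
      linarith
    · -- small ground set
      push Not at hcase
      obtain ⟨A, hA⟩ := hmain m hm le_rfl
      refine ⟨A, fun i => (hA i).trans ?_⟩
      have hmn : (m : ℝ) ≤ n := by nlinarith
      have hsm0 : 0 < √(m : ℝ) := Real.sqrt_pos.mpr hm0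
      have hsm : √(m : ℝ) ^ 2 = m := Real.sq_sqrt hm0.le
      have h1 : 240 * (m : ℝ) / √m = 240 * √m := by
        rw [div_eq_iff hsm0.ne', mul_assoc, ← pow_two, hsm]
      have h2 : √(m : ℝ) * (1 + Real.log (1 + n / m)) ≤ 2 * √n := by
        have h3 := log_one_add_le_sqrt (show 0 ≤ (n : ℝ) / m by positivity)
        have h4 : √(m : ℝ) * √((n : ℝ) / m) = √n := by
          rw [← Real.sqrt_mul hm0.le]
          congr 1
          field_simp
        have h5 : √(m : ℝ) ≤ √n := Real.sqrt_le_sqrt hmn
        have h6 := mul_le_mul_of_nonneg_left h3 hsm0.le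
        rw [h4] at h6
        linarith
      have h3 : 2 * √(m * Real.log (2 * n)) ≤ 80 * √n := by
        have h4 : √(m * Real.log (2 * n)) ≤ 40 * √n := by
          apply Real.sqrt_le_iff.mpr
          refine ⟨by positivity, ?_⟩
          have h5 : (m : ℝ) * Real.log (2 * n) ≤ m * (2 * L) :=
            mul_le_mul_of_nonneg_left hlog2n hm0.le
          rw [mul_pow, hsn]
          linarith
        linarith
      rw [h1, mul_assoc]
      linarith
  exact hkey

end Pool.Agent.Results.MP_506ba8_co.SmallGroundSet
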